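import Pool.Agent.Zk72.NF.FDefs

/-!
The Hausdorff distance of the traces is at most the distance of the curves.
-/

set_option autoImplicit false

namespace Pool.Agent.Zk60.NF

open TopologicalSpace

/-- The Hausdorff distance of the traces of two curves is at most their distance. -/
theorem hausdorff_le_cdist (γ γ' : C(unitInterval, ℂ)) :
    Metric.hausdorffDist (Set.range γ) (Set.range γ') ≤ H342L.cdist γ γ' := by
  unfold H342L.cdist
  have : Nonempty (unitInterval ≃o unitInterval) := ⟨OrderIso.refl _⟩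
  refine le_ciInf fun φ => ?_
  have hcont : Continuous fun t : unitInterval => dist (γ t) (γ' (φ t)) :=
    γ.continuous.dist (γ'.continuous.comp φ.continuous)
  have hb : BddAbove (Set.range fun t : unitInterval => dist (γ t) (γ' (φ t))) :=
    (isCompact_range hcont).bddAbove
  have hle : ∀ t : unitInterval, dist (γ t) (γ' (φ t)) ≤
      ⨆ t : unitInterval, dist (γ t) (γ' (φ t)) := fun t => le_ciSup hb t
  refine Metric.hausdorffDist_le_of_mem_dist (dist_nonneg.trans (hle 0)) ?_ ?_
  · rintro _ ⟨t, rfl⟩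
    exact ⟨γ' (φ t), ⟨φ t, rfl⟩, hle t⟩
  · rintro _ ⟨t, rfl⟩
    refine ⟨γ (φ.symm t), ⟨φ.symm t, rfl⟩, ?_⟩
    have h := hle (φ.symm t)
    rw [OrderIso.apply_symm_apply] at h
    rw [dist_comm]
    exact h

theorem t_HB : Pool.Agent.Zk72.NF.S_HB := fun R δ F F' =>
  hausdorff_le_cdist (R.curve δ F) (R.curve δ F')

end Pool.Agent.Zk60.NF
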